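import Mathlib

/-! Module P of MP_0ec205_nt (helper30): a Gaussian sum over prime powers. -/

noncomputable section

namespace Pool.Agent.helper44.LRP

open Real ArithmeticFunction Finset

/-- comparison with the integral of `1/(1+t^2)`, telescoped with `arctan`. -/
theorem one_term {c t : ℝ} (hc : 0 < c) (hc1 : c ≤ 1) :
    1 / (1 + c ^ 2 * t ^ 2) ≤
      2 / c * (arctan (c * (t + 1 / 2)) - arctan (c * (t - 1 / 2))) := by
  have hden : 0 < 1 + c ^ 2 * t ^ 2 := by positivity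
  have key : 1 / (2 * (1 + c ^ 2 * t ^ 2)) * (c * (t + 1 / 2) - c * (t - 1 / 2)) ≤
      arctan (c * (t + 1 / 2)) - arctan (c * (t - 1 / 2)) := by
    apply Convex.mul_sub_le_image_sub_of_le_deriv (convex_Icc (c * (t - 1 / 2)) (c * (t + 1 / 2)))
      (continuous_arctan.continuousOn) (differentiable_arctan.differentiableOn)
    · intro x hx
      rw [interior_Icc] at hx
      rw [Real.deriv_arctan]
      apply one_div_le_one_div_of_le (by positivity)
      have h1 : (x - c * t) ^ 2 ≤ c ^ 2 / 4 := by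
        have : |x - c * t| ≤ c / 2 := by
          rw [abs_le]; constructor <;> nlinarith [hx.1, hx.2]
        have h2 := sq_abs (x - c * t)
        rw [← h2]
        nlinarith [abs_nonneg (x - c * t)]
      have h3 : c ^ 2 ≤ 1 := by nlinarith
      nlinarith [sq_nonneg (x - 2 * (c * t)), sq_nonneg (x - c * t - c * t)]
    · constructor
      · exact le_refl _
      · nlinarith
    · constructor
      · nlinarith
      · exact le_refl _
    · nlinarith
  have h4 : 1 / (1 + c ^ 2 * t ^ 2) =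
      2 / c * (1 / (2 * (1 + c ^ 2 * t ^ 2)) * (c * (t + 1 / 2) - c * (t - 1 / 2))) := by
    field_simp
    ring
  rw [h4]
  exact mul_le_mul_of_nonneg_left key (by positivity)

theorem sum_le {c N : ℝ} (hc : 0 < c) (n : ℕ) :
    ∑ i ∈ range n, 1 / (1 + c ^ 2 * ((i : ℝ) - N) ^ 2) ≤ 2 * π * (1 + 1 / c) := by
  set c' := min c 1 with hc'
  have hc'0 : 0 < c' := lt_min hc one_pos
  have hc'1 : c' ≤ 1 := min_le_right _ _
  have hc'c : c' ≤ c := min_le_left _ _
  have h1 : ∀ i ∈ range n, 1 / (1 + c ^ 2 * ((i : ℝ) - N) ^ 2) ≤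
      2 / c' * (arctan (c' * (((i + 1 : ℕ) : ℝ) - N - 1 / 2)) -
        arctan (c' * ((i : ℝ) - N - 1 / 2))) := by
    intro i _
    have h2 : 1 / (1 + c ^ 2 * ((i : ℝ) - N) ^ 2) ≤ 1 / (1 + c' ^ 2 * ((i : ℝ) - N) ^ 2) := by
      apply one_div_le_one_div_of_le (by positivity)
      have : c' ^ 2 ≤ c ^ 2 := by gcongr
      nlinarith [sq_nonneg ((i : ℝ) - N)]
    refine h2.trans ?_
    have := one_term (t := (i : ℝ) - N) hc'0 hc'1
    have e1 : (((i + 1 : ℕ) : ℝ) - N - 1 / 2) = (i : ℝ) - N + 1 / 2 := by push_cast; ring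
    rw [e1]
    exact this
  refine (Finset.sum_le_sum h1).trans ?_
  rw [← Finset.mul_sum]
  rw [Finset.sum_range_sub (fun i : ℕ => arctan (c' * ((i : ℝ) - N - 1 / 2)))]
  have h5 : arctan (c' * ((n : ℝ) - N - 1 / 2)) -
      arctan (c' * (((0 : ℕ) : ℝ) - N - 1 / 2)) ≤ π := by
    have a1 := (Real.arctan_lt_pi_div_two (c' * ((n : ℝ) - N - 1 / 2))).le
    have a2 := (Real.neg_pi_div_two_lt_arctan (c' * (((0 : ℕ) : ℝ) - N - 1 / 2))).le
    linarith
  have h6 : 2 / c' * (arctan (c' * ((n : ℝ) - N - 1 / 2)) -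
      arctan (c' * (((0 : ℕ) : ℝ) - N - 1 / 2))) ≤ 2 / c' * π :=
    mul_le_mul_of_nonneg_left h5 (by positivity)
  refine h6.trans ?_
  have h7 : 1 / c' ≤ 1 + 1 / c := by
    rcases le_total c 1 with h | h
    · have : c' = c := min_eq_left h
      rw [this]; linarith
    · have : c' = 1 := min_eq_right h
      rw [this]
      have : 0 < 1 / c := by positivity
      linarith
  have : 2 / c' * π = 2 * π * (1 / c') := by ring
  rw [this]
  exact mul_le_mul_of_nonneg_left h7 (by positivity)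

/-- the pointwise bound. -/
theorem term_le {H y : ℝ} (hH : 4 ≤ H) (hy : 0 ≤ y) (n : ℕ) :
    (vonMangoldt n : ℝ) / Real.sqrt n *
      (Real.exp (-(H ^ 2 * (Real.log n - y) ^ 2 / 4)) +
        Real.exp (-(H ^ 2 * (Real.log n + y) ^ 2 / 4))) ≤
      16 * exp 2 * (1 + y) * exp (-y / 2) *
        (1 / (1 + (H / exp y) ^ 2 * ((n : ℝ) - exp y) ^ 2)) := by
  rcases Nat.eq_zero_or_pos n with rfl | hn
  · simp only [ArithmeticFunction.map_zero, zero_div, zero_mul]
    positivity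
  have hn0 : (0 : ℝ) < n := by exact_mod_cast hn
  have hn1 : (1 : ℝ) ≤ n := by exact_mod_cast hn
  have hlog : 0 ≤ Real.log n := Real.log_nonneg hn1
  set l := Real.log n - y with hl
  have hlog' : Real.log n = y + l := by rw [hl]; ring
  have hsecond : Real.exp (-(H ^ 2 * (Real.log n + y) ^ 2 / 4)) ≤
      Real.exp (-(H ^ 2 * l ^ 2 / 4)) := by
    apply Real.exp_le_exp.mpr
    have : l ^ 2 ≤ (Real.log n + y) ^ 2 := by
      rw [hl]; nlinarith [mul_nonneg hlog hy]
    nlinarith [sq_nonneg H]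
  have hnexp : (n : ℝ) = exp (y + l) := by
    rw [← hlog', Real.exp_log hn0]
  have hsqrt : Real.sqrt n = exp ((y + l) / 2) := by
    rw [hnexp, ← Real.exp_half]
  have hΛ : (vonMangoldt n : ℝ) ≤ y + l := by
    rw [← hlog']; exact vonMangoldt_le_log
  have hΛ0 : 0 ≤ (vonMangoldt n : ℝ) := vonMangoldt_nonneg
  -- the four exponential factors
  set u := H ^ 2 * l ^ 2 / 8 with hu
  have hu0 : 0 ≤ u := by positivity
  have h1 : exp (-u) ≤ exp 2 * exp (-(4 * |l|)) := by
    rw [← Real.exp_add]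
    apply Real.exp_le_exp.mpr
    have h16 : 16 ≤ H ^ 2 := by nlinarith
    have : 16 * l ^ 2 ≤ H ^ 2 * l ^ 2 := mul_le_mul_of_nonneg_right h16 (sq_nonneg l)
    have h2 : l ^ 2 = |l| ^ 2 := (sq_abs l).symm
    rw [hu]
    nlinarith [sq_nonneg (|l| - 1)]
  have h2 : exp (-(2 * |l|)) * exp (-u) ≤ 8 * (1 / (1 + H ^ 2 * (exp l - 1) ^ 2)) := by
    have hE : exp (-u) ≤ 1 / (1 + u) := by
      rw [Real.exp_neg, ← one_div]
      apply one_div_le_one_div_of_le (by positivity)
      have := Real.add_one_le_exp u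
      linarith
    have h3 : exp (-|l|) * |exp l - 1| ≤ |l| := by
      rcases le_total 0 l with h | h
      · rw [abs_of_nonneg h, abs_of_nonneg (by linarith [Real.one_le_exp h])]
        have : exp (-l) * (exp l - 1) = 1 - exp (-l) := by
          rw [mul_sub, ← Real.exp_add]; simp
        rw [this]
        have := Real.add_one_le_exp (-l)
        linarith
      · rw [abs_of_nonpos h, abs_of_nonpos (by linarith [Real.exp_le_one_iff.mpr h])]
        have a1 : 0 ≤ -(exp l - 1) := by linarith [Real.exp_le_one_iff.mpr h]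
        have a2 : -(exp l - 1) ≤ -l := by linarith [Real.add_one_le_exp l]
        have a3 : exp (- -l) ≤ 1 := by rw [neg_neg]; exact Real.exp_le_one_iff.mpr h
        calc exp (- -l) * -(exp l - 1) ≤ 1 * -(exp l - 1) :=
              mul_le_mul_of_nonneg_right a3 a1
          _ ≤ -l := by linarith
    have h4 : exp (-(2 * |l|)) * (exp l - 1) ^ 2 ≤ l ^ 2 := by
      have e1 : exp (-(2 * |l|)) = exp (-|l|) ^ 2 := by
        rw [← Real.exp_nat_mul]; congr 1; push_cast; ring
      rw [e1, ← sq_abs (exp l - 1), ← mul_pow, ← sq_abs l]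
      exact pow_le_pow_left₀ (by positivity) h3 2
    have h5 : exp (-(2 * |l|)) ≤ 1 := Real.exp_le_one_iff.mpr (by linarith [abs_nonneg l])
    have h6 : exp (-(2 * |l|)) * (1 + H ^ 2 * (exp l - 1) ^ 2) ≤ 8 * (1 + u) := by
      have : exp (-(2 * |l|)) * (H ^ 2 * (exp l - 1) ^ 2) ≤ H ^ 2 * l ^ 2 := by
        calc exp (-(2 * |l|)) * (H ^ 2 * (exp l - 1) ^ 2) =
              H ^ 2 * (exp (-(2 * |l|)) * (exp l - 1) ^ 2) := by ring
          _ ≤ H ^ 2 * l ^ 2 := mul_le_mul_of_nonneg_left h4 (sq_nonneg H)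
      have h8 : 8 * (1 + u) = 8 + H ^ 2 * l ^ 2 := by rw [hu]; ring
      rw [h8, mul_add, mul_one]
      linarith
    calc exp (-(2 * |l|)) * exp (-u) ≤ exp (-(2 * |l|)) * (1 / (1 + u)) :=
          mul_le_mul_of_nonneg_left hE (exp_nonneg _)
      _ ≤ 8 * (1 / (1 + H ^ 2 * (exp l - 1) ^ 2)) := by
          rw [mul_one_div, mul_one_div, div_le_div_iff₀ (by positivity) (by positivity)]
          exact h6
  have h3 : (vonMangoldt n : ℝ) * (exp (-l / 2) * exp (-(2 * |l|))) ≤ 1 + y := by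
    have a1 : exp (-l / 2) * exp (-(2 * |l|)) ≤ exp (-|l|) := by
      rw [← Real.exp_add]
      apply Real.exp_le_exp.mpr
      have := neg_abs_le l
      nlinarith [abs_nonneg l]
    have a2 : exp (-|l|) ≤ 1 := Real.exp_le_one_iff.mpr (by linarith [abs_nonneg l])
    have a3 : |l| * exp (-|l|) ≤ 1 := by
      have := Real.add_one_le_exp |l|
      have e : exp |l| * exp (-|l|) = 1 := by rw [← Real.exp_add]; simp
      calc |l| * exp (-|l|) ≤ exp |l| * exp (-|l|) :=
            mul_le_mul_of_nonneg_right (by linarith) (exp_nonneg _)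
        _ = 1 := e
    have a4 : (vonMangoldt n : ℝ) ≤ y + |l| := hΛ.trans (by linarith [le_abs_self l])
    calc (vonMangoldt n : ℝ) * (exp (-l / 2) * exp (-(2 * |l|)))
        ≤ (y + |l|) * exp (-|l|) :=
          mul_le_mul a4 a1 (by positivity) (by positivity)
      _ = y * exp (-|l|) + |l| * exp (-|l|) := by ring
      _ ≤ y * 1 + 1 := add_le_add (mul_le_mul_of_nonneg_left a2 hy) a3
      _ = 1 + y := by ring
  have hr : (H / exp y) ^ 2 * ((n : ℝ) - exp y) ^ 2 = H ^ 2 * (exp l - 1) ^ 2 := by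
    rw [hnexp, Real.exp_add]
    have := (Real.exp_pos y).ne'
    field_simp
  rw [hr]
  have hsum : Real.exp (-(H ^ 2 * l ^ 2 / 4)) + Real.exp (-(H ^ 2 * (Real.log n + y) ^ 2 / 4)) ≤
      2 * (exp (-u) * exp (-u)) := by
    have e : Real.exp (-(H ^ 2 * l ^ 2 / 4)) = exp (-u) * exp (-u) := by
      rw [← Real.exp_add, hu]; congr 1; ring
    rw [← e]
    linarith
  have hdiv : (vonMangoldt n : ℝ) / Real.sqrt n =
      (vonMangoldt n : ℝ) * (exp (-y / 2) * exp (-l / 2)) := by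
    rw [hsqrt, div_eq_mul_inv, ← Real.exp_neg, ← Real.exp_add]
    congr 2; ring
  rw [hdiv]
  set G := 1 / (1 + H ^ 2 * (exp l - 1) ^ 2) with hG
  have hG0 : 0 ≤ G := by positivity
  calc (vonMangoldt n : ℝ) * (exp (-y / 2) * exp (-l / 2)) *
        (Real.exp (-(H ^ 2 * l ^ 2 / 4)) + Real.exp (-(H ^ 2 * (Real.log n + y) ^ 2 / 4)))
      ≤ (vonMangoldt n : ℝ) * (exp (-y / 2) * exp (-l / 2)) * (2 * (exp (-u) * exp (-u))) :=
        mul_le_mul_of_nonneg_left hsum (by positivity)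
    _ ≤ (vonMangoldt n : ℝ) * (exp (-y / 2) * exp (-l / 2)) *
          (2 * ((exp 2 * exp (-(4 * |l|))) * exp (-u))) := by
        apply mul_le_mul_of_nonneg_left _ (by positivity)
        apply mul_le_mul_of_nonneg_left _ (by norm_num)
        exact mul_le_mul_of_nonneg_right h1 (exp_nonneg _)
    _ = 2 * exp 2 * exp (-y / 2) * ((vonMangoldt n : ℝ) * (exp (-l / 2) * exp (-(2 * |l|)))) *
          (exp (-(2 * |l|)) * exp (-u)) := by
        have e : exp (-(4 * |l|)) = exp (-(2 * |l|)) * exp (-(2 * |l|)) := by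
          rw [← Real.exp_add]; congr 1; ring
        rw [e]; ring
    _ ≤ 2 * exp 2 * exp (-y / 2) * (1 + y) * (8 * G) := by
        apply mul_le_mul _ h2 (by positivity) (by positivity)
        exact mul_le_mul_of_nonneg_left h3 (by positivity)
    _ = 16 * exp 2 * (1 + y) * exp (-y / 2) * G := by ring

theorem main_nonneg {H y : ℝ} (hH : 4 ≤ H) (hy : 0 ≤ y) :
    (Summable fun n : ℕ => (vonMangoldt n : ℝ) / Real.sqrt n *
      (Real.exp (-(H ^ 2 * (Real.log n - y) ^ 2 / 4)) +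
        Real.exp (-(H ^ 2 * (Real.log n + y) ^ 2 / 4)))) ∧
    ∑' n : ℕ, (vonMangoldt n : ℝ) / Real.sqrt n *
      (Real.exp (-(H ^ 2 * (Real.log n - y) ^ 2 / 4)) +
        Real.exp (-(H ^ 2 * (Real.log n + y) ^ 2 / 4))) ≤
      (32 * π * exp 2) * (1 + y) * (Real.exp (-y / 2) + Real.exp (y / 2) / H) := by
  have hH0 : 0 < H := by linarith
  have hnn : ∀ n : ℕ, 0 ≤ (vonMangoldt n : ℝ) / Real.sqrt n *
      (Real.exp (-(H ^ 2 * (Real.log n - y) ^ 2 / 4)) +
        Real.exp (-(H ^ 2 * (Real.log n + y) ^ 2 / 4))) := by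
    intro n
    have : 0 ≤ (vonMangoldt n : ℝ) := vonMangoldt_nonneg
    positivity
  have hb : ∀ m : ℕ, ∑ n ∈ range m, (vonMangoldt n : ℝ) / Real.sqrt n *
      (Real.exp (-(H ^ 2 * (Real.log n - y) ^ 2 / 4)) +
        Real.exp (-(H ^ 2 * (Real.log n + y) ^ 2 / 4))) ≤
      (32 * π * exp 2) * (1 + y) * (Real.exp (-y / 2) + Real.exp (y / 2) / H) := by
    intro m
    refine (Finset.sum_le_sum fun n _ => term_le hH hy n).trans ?_
    rw [← Finset.mul_sum]
    have hc : 0 < H / exp y := by positivity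
    refine (mul_le_mul_of_nonneg_left (sum_le (N := exp y) hc m) (by positivity)).trans ?_
    apply le_of_eq
    have e1 : exp (y / 2) = exp (-y / 2) * exp y := by
      rw [← Real.exp_add]; congr 1; ring
    rw [e1]
    have := (Real.exp_pos y).ne'
    field_simp
    ring
  exact ⟨summable_of_sum_range_le hnn hb, Real.tsum_le_of_sum_range_le hnn hb⟩

theorem prime_bound : ∃ C : ℝ, 0 < C ∧ ∀ H : ℝ, 4 ≤ H → ∀ x : ℝ,
    (Summable fun n : ℕ => (vonMangoldt n : ℝ) / Real.sqrt n *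
      (Real.exp (-(H ^ 2 * (Real.log n - x) ^ 2 / 4)) +
        Real.exp (-(H ^ 2 * (Real.log n + x) ^ 2 / 4)))) ∧
    ∑' n : ℕ, (vonMangoldt n : ℝ) / Real.sqrt n *
      (Real.exp (-(H ^ 2 * (Real.log n - x) ^ 2 / 4)) +
        Real.exp (-(H ^ 2 * (Real.log n + x) ^ 2 / 4))) ≤
      C * (1 + |x|) * (Real.exp (-|x| / 2) + Real.exp (|x| / 2) / H) := by
  refine ⟨32 * π * exp 2, by positivity, fun H hH x => ?_⟩
  have key := main_nonneg hH (abs_nonneg x)
  have e : (fun n : ℕ => (vonMangoldt n : ℝ) / Real.sqrt n *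
      (Real.exp (-(H ^ 2 * (Real.log n - x) ^ 2 / 4)) +
        Real.exp (-(H ^ 2 * (Real.log n + x) ^ 2 / 4)))) =
      fun n : ℕ => (vonMangoldt n : ℝ) / Real.sqrt n *
      (Real.exp (-(H ^ 2 * (Real.log n - |x|) ^ 2 / 4)) +
        Real.exp (-(H ^ 2 * (Real.log n + |x|) ^ 2 / 4))) := by
    funext n
    rcases abs_cases x with ⟨h, _⟩ | ⟨h, _⟩
    · rw [h]
    · rw [h, sub_neg_eq_add, add_comm (Real.exp _)]
      rfl
  rw [e]
  exact key

end Pool.Agent.helper44.LRP
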